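import Pool.Agent.Helper85.REC.Stmts14

set_option autoImplicit false

/-!
# Subgroups of `SL_2 × SL_2` with full projections: `REC.ST_GOU`   [helper58]
-/

namespace Pool.Agent.Helper58.REC.GOU

open Matrix

variable {F : Type} [Field F]

abbrev S (F : Type) [Field F] := Matrix.SpecialLinearGroup (Fin 2) F

/-- matrices by entries -/
def mk (p q r s : F) (h : p * s - q * r = 1) : S F := ⟨!![p, q; r, s], by
  rw [det_fin_two_of]; exact h⟩

lemma mk_coe (p q r s : F) (h : p * s - q * r = 1) :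
    (mk p q r s h : Matrix (Fin 2) (Fin 2) F) = !![p, q; r, s] := rfl

lemma exists_mk (z : S F) : ∃ p q r s, ∃ h : p * s - q * r = 1, z = mk p q r s h := by
  refine ⟨z.1 0 0, z.1 0 1, z.1 1 0, z.1 1 1, ?_, ?_⟩
  · have := z.2
    rwa [det_fin_two] at this
  · apply Subtype.ext
    exact eta_fin_two z.1

lemma mk_eq {p q r s p' q' r' s' : F} {h : p * s - q * r = 1} {h' : p' * s' - q' * r' = 1}
    (h1 : p = p') (h2 : q = q') (h3 : r = r') (h4 : s = s') : mk p q r s h = mk p' q' r' s' h' := by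
  subst h1 h2 h3 h4; rfl

lemma mk_mul (p q r s p' q' r' s' : F) (h : p * s - q * r = 1) (h' : p' * s' - q' * r' = 1) :
    mk p q r s h * mk p' q' r' s' h' = mk (p * p' + q * r') (p * q' + q * s')
      (r * p' + s * r') (r * q' + s * s') (by linear_combination h * (p' * s' - q' * r') + h') := by
  apply Subtype.ext
  exact mul_fin_two _ _ _ _ _ _ _ _

lemma mk_one : mk (1 : F) 0 0 1 (by ring) = 1 := by
  apply Subtype.ext
  exact one_fin_two.symm

lemma mk_inv (p q r s : F) (h : p * s - q * r = 1) :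
    (mk p q r s h)⁻¹ = mk s (-q) (-r) p (by linear_combination h) := by
  rw [inv_eq_iff_mul_eq_one, mk_mul, ← mk_one]
  apply mk_eq
  · linear_combination h
  · ring
  · ring
  · linear_combination h

/-- upper transvection -/
def Up (x : F) : S F := mk 1 x 0 1 (by ring)
/-- lower transvection -/
def Lo (x : F) : S F := mk 1 0 x 1 (by ring)

@[simp] lemma Up_coe (x : F) : (Up x : Matrix (Fin 2) (Fin 2) F) = !![1, x; 0, 1] := rfl
@[simp] lemma Lo_coe (x : F) : (Lo x : Matrix (Fin 2) (Fin 2) F) = !![1, 0; x, 1] := rfl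

lemma Up_mul (x y : F) : Up x * Up y = Up (x + y) := by
  rw [Up, Up, mk_mul]; apply mk_eq <;> ring

lemma Lo_mul (x y : F) : Lo x * Lo y = Lo (x + y) := by
  rw [Lo, Lo, mk_mul]; apply mk_eq <;> ring

lemma Up_zero : Up (0 : F) = 1 := mk_one

lemma Lo_zero : Lo (0 : F) = 1 := mk_one

lemma Up_pow (x : F) (n : ℕ) : Up x ^ n = Up (n * x) := by
  induction n with
  | zero => simp [Up_zero]
  | succ n ih => rw [pow_succ, ih, Up_mul]; congr 1; push_cast; ring

lemma Lo_pow (x : F) (n : ℕ) : Lo x ^ n = Lo (n * x) := by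
  induction n with
  | zero => simp [Lo_zero]
  | succ n ih => rw [pow_succ, ih, Lo_mul]; congr 1; push_cast; ring

lemma Up_inv (x : F) : (Up x)⁻¹ = Up (-x) := by
  rw [inv_eq_iff_mul_eq_one, Up_mul]; simp [Up_zero]

lemma Lo_inv (x : F) : (Lo x)⁻¹ = Lo (-x) := by
  rw [inv_eq_iff_mul_eq_one, Lo_mul]; simp [Lo_zero]

/-- an element is a product of transvections -/
lemma gen (P : S F → Prop) (hU : ∀ x, P (Up x)) (hL : ∀ x, P (Lo x))
    (hm : ∀ a b, P a → P b → P (a * b)) (A : S F) : P A := by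
  have key : ∀ (p q r s : F) (h : p * s - q * r = 1), r ≠ 0 → P (mk p q r s h) := by
    intro p q r s h hr
    have e : mk p q r s h = Up ((p - 1) / r) * Lo r * Up ((s - 1) / r) := by
      rw [Up, Lo, Up, mk_mul, mk_mul]
      apply mk_eq
      · field_simp; ring
      · field_simp; linear_combination -h
      · ring
      · field_simp; ring
    rw [e]
    exact hm _ _ (hm _ _ (hU _) (hL _)) (hU _)
  obtain ⟨p, q, r, s, h, rfl⟩ := exists_mk A
  by_cases hr : r = 0
  · subst hr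
    have h0 : p ≠ 0 := by
      intro h0; rw [h0] at h; simp at h
    have e : mk p q 0 s h = Lo (-1) * mk p q p (q + s) (by linear_combination h) := by
      rw [Lo, mk_mul]
      apply mk_eq <;> ring
    rw [e]
    exact hm _ _ (hL _) (key _ _ _ _ _ h0)
  · exact key _ _ _ _ h hr

/-- a normal subgroup with a lower transvection is everything -/
lemma lo_mem_top {l : ℕ} [Fact l.Prime] (N : Subgroup (S (ZMod l)))
    (hN : ∀ g x, x ∈ N → g * x * g⁻¹ ∈ N) (y : ZMod l) (hy : y ≠ 0) (h : Lo y ∈ N) : N = ⊤ := by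
  have hL : ∀ x, Lo x ∈ N := by
    intro x
    have e : Lo x = Lo y ^ ((x / y).val) := by
      rw [Lo_pow, ZMod.natCast_val, ZMod.cast_id, div_mul_cancel₀ _ hy]
    rw [e]
    exact N.pow_mem h _
  have hU : ∀ x, Up x ∈ N := by
    intro x
    have e : Up x = mk 0 1 (-1) 0 (by ring) * Lo (-x) * (mk 0 1 (-1) 0 (by ring))⁻¹ := by
      rw [mk_inv, Lo, mk_mul, mk_mul]
      apply mk_eq <;> ring
    rw [e]
    exact hN _ _ (hL _)
  rw [Subgroup.eq_top_iff']
  exact gen (fun a => a ∈ N) hU hL (fun a b ha hb => N.mul_mem ha hb)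

lemma num_ne {l : ℕ} [Fact l.Prime] (hl : 5 < l) : (2 : ZMod l) ≠ 0 ∧ (3 : ZMod l) ≠ 0 ∧
    (15 : ZMod l) ≠ 0 := by
  have hp : l.Prime := Fact.out
  have h2 : (2 : ZMod l) ≠ 0 := by
    intro h
    have : ((2 : ℕ) : ZMod l) = 0 := by exact_mod_cast h
    rw [ZMod.natCast_eq_zero_iff] at this
    exact absurd (Nat.le_of_dvd (by norm_num) this) (by omega)
  have h3 : (3 : ZMod l) ≠ 0 := by
    intro h
    have : ((3 : ℕ) : ZMod l) = 0 := by exact_mod_cast h
    rw [ZMod.natCast_eq_zero_iff] at this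
    exact absurd (Nat.le_of_dvd (by norm_num) this) (by omega)
  have h5 : (5 : ZMod l) ≠ 0 := by
    intro h
    have : ((5 : ℕ) : ZMod l) = 0 := by exact_mod_cast h
    rw [ZMod.natCast_eq_zero_iff] at this
    exact absurd (Nat.le_of_dvd (by norm_num) this) (by omega)
  refine ⟨h2, h3, ?_⟩
  have : (15 : ZMod l) = 3 * 5 := by norm_num
  rw [this]
  exact mul_ne_zero h3 h5

/-- a normal subgroup with a noncentral element is everything -/
lemma normal_top {l : ℕ} [Fact l.Prime] (hl : 5 < l) (N : Subgroup (S (ZMod l)))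
    (hN : ∀ g x, x ∈ N → g * x * g⁻¹ ∈ N) (z : S (ZMod l)) (hz : z ∈ N) (h1 : z ≠ 1)
    (h2 : z ≠ -1) : N = ⊤ := by
  obtain ⟨h2', -, h15⟩ := num_ne hl
  -- first case: lower left entry not zero
  have key : ∀ (p q r s : ZMod l) (h : p * s - q * r = 1), r ≠ 0 → mk p q r s h ∈ N → N = ⊤ := by
    intro p q r s h hr hz
    have h4 : (4 : ZMod l) ≠ 0 := by
      have : (4 : ZMod l) = 2 * 2 := by norm_num
      rw [this]; exact mul_ne_zero h2' h2'
    have m1 := hN (Up (-p / r)) _ hz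
    have e1 : Up (-p / r) * mk p q r s h * (Up (-p / r))⁻¹ =
        mk 0 (-r⁻¹) r (s + p) (by field_simp; ring) := by
      rw [Up_inv, Up, Up, mk_mul, mk_mul]
      apply mk_eq
      · field_simp; ring
      · field_simp; linear_combination -h
      · ring
      · field_simp; ring
    rw [e1] at m1
    have m2 := N.mul_mem (hN (mk 2 0 0 2⁻¹ (by field_simp; ring)) _ m1) (N.inv_mem m1)
    have e2 : ∃ c : ZMod l, mk 2 0 0 2⁻¹ (by field_simp; ring) *
        mk 0 (-r⁻¹) r (s + p) (by field_simp; ring) * (mk 2 0 0 2⁻¹ (by field_simp; ring))⁻¹ *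
        (mk 0 (-r⁻¹) r (s + p) (by field_simp; ring))⁻¹ = mk 4 0 c 4⁻¹ (by field_simp; ring) := by
      refine ⟨r * (s + p) * (4⁻¹ - 1), ?_⟩
      rw [mk_inv, mk_inv, mk_mul, mk_mul, mk_mul]
      apply mk_eq
      · field_simp; ring
      · ring
      · field_simp; ring
      · field_simp; ring
    obtain ⟨c, e2⟩ := e2
    rw [e2] at m2
    have m3 := N.mul_mem m2 (N.inv_mem (hN (Lo 1) _ m2))
    have h16 : (16 : ZMod l) ≠ 0 := by
      have : (16 : ZMod l) = 4 * 4 := by norm_num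
      rw [this]; exact mul_ne_zero h4 h4
    have e3 : mk 4 0 c 4⁻¹ (by field_simp; ring) *
        (Lo 1 * mk 4 0 c 4⁻¹ (by field_simp; ring) * (Lo 1)⁻¹)⁻¹ = Lo (-15 / 16) := by
      rw [Lo_inv, Lo, Lo, Lo, mk_mul, mk_mul, mk_inv, mk_mul]
      apply mk_eq
      · field_simp; ring
      · field_simp; ring
      · field_simp; ring
      · field_simp; ring
    rw [e3] at m3
    refine lo_mem_top N hN _ ?_ m3
    exact div_ne_zero (neg_ne_zero.2 h15) h16
  obtain ⟨p, q, r, s, h, rfl⟩ := exists_mk z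
  by_cases hr : r = 0
  · subst hr
    by_cases hq : q = 0
    · subst hq
      have m1 := hN (Lo 1) _ hz
      have e1 : Lo 1 * mk p 0 0 s h * (Lo 1)⁻¹ = mk p 0 (p - s) s (by linear_combination h) := by
        rw [Lo_inv, Lo, Lo, mk_mul, mk_mul]
        apply mk_eq <;> ring
      rw [e1] at m1
      refine key _ _ _ _ _ ?_ m1
      intro h3
      have h4 : p = s := by linear_combination h3
      subst h4
      have h5 : (p - 1) * (p + 1) = 0 := by linear_combination h
      rcases mul_eq_zero.1 h5 with h6 | h6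
      · apply h1
        rw [← mk_one]
        apply mk_eq
        · linear_combination h6
        · rfl
        · rfl
        · linear_combination h6
      · apply h2
        apply Subtype.ext
        have e6 : p = -1 := by linear_combination h6
        subst e6
        ext i j
        fin_cases i <;> fin_cases j <;> simp [mk]
    · have m1 := hN (mk 0 1 (-1) 0 (by ring)) _ hz
      have e1 : mk 0 1 (-1) 0 (by ring) * mk p q 0 s h * (mk 0 1 (-1) 0 (by ring))⁻¹ =
          mk s 0 (-q) p (by linear_combination h) := by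
        rw [mk_inv, mk_mul, mk_mul]
        apply mk_eq <;> ring
      rw [e1] at m1
      exact key _ _ _ _ _ (neg_ne_zero.2 hq) m1
  · exact key _ _ _ _ _ hr hz

/-- a matrix of determinant one and trace two is unipotent -/
lemma unip {l : ℕ} [Fact l.Prime] (B : S (ZMod l)) (ht : B.1.trace = 2) (h1 : B ≠ 1) :
    ∃ g : GL (Fin 2) (ZMod l), B.1 * g.1 = g.1 * !![1, 1; 0, 1] := by
  obtain ⟨p, q, r, s, h, rfl⟩ := exists_mk B
  have hs : s = 2 - p := by
    have : p + s = 2 := by simpa [mk, trace_fin_two] using ht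
    linear_combination this
  subst hs
  have hq : q * r = -(p - 1) ^ 2 := by linear_combination -h
  by_cases hr : r = 0
  · subst hr
    have hp : p = 1 := by
      have : (p - 1) ^ 2 = 0 := by linear_combination hq
      have := pow_eq_zero_iff (two_ne_zero) |>.1 this
      linear_combination this
    subst hp
    have hq0 : q ≠ 0 := by
      intro hq0
      subst hq0
      apply h1
      rw [← mk_one]
      apply mk_eq
      · rfl
      · rfl
      · rfl
      · ring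
    refine ⟨GeneralLinearGroup.mkOfDetNeZero !![q, 0; 0, 1] (by simpa [det_fin_two_of] using hq0), ?_⟩
    show !![1, q; 0, 2 - 1] * !![q, 0; 0, 1] = !![q, 0; 0, 1] * !![1, 1; 0, 1]
    rw [mul_fin_two, mul_fin_two]
    ext i j
    fin_cases i <;> fin_cases j <;> simp
    norm_num
  · refine ⟨GeneralLinearGroup.mkOfDetNeZero !![p - 1, 1; r, 0]
      (by simpa [det_fin_two_of] using hr), ?_⟩
    show !![p, q; r, 2 - p] * !![p - 1, 1; r, 0] = !![p - 1, 1; r, 0] * !![1, 1; 0, 1]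
    rw [mul_fin_two, mul_fin_two]
    ext i j
    fin_cases i <;> fin_cases j <;> simp
    · linear_combination hq
    · ring

/-- two matrices of trace two which do not commute -/
lemma pair_unip {l : ℕ} [Fact l.Prime] (B C : S (ZMod l)) (hB : B.1.trace = 2) (hC : C.1.trace = 2)
    (hBC : B.1 * C.1 ≠ C.1 * B.1) :
    ∃ (g : GL (Fin 2) (ZMod l)) (β : ZMod l), B.1 * g.1 = g.1 * !![1, 1; 0, 1] ∧
      C.1 * g.1 = g.1 * !![1, 0; β, 1] := by
  have hB1 : B ≠ 1 := by
    intro h; apply hBC; rw [h]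
    show (1 : Matrix (Fin 2) (Fin 2) (ZMod l)) * C.1 = C.1 * 1
    rw [one_mul, mul_one]
  obtain ⟨g, hg⟩ := unip B hB hB1
  -- the entries of C in the new basis
  obtain ⟨p, q, r, s, hpq⟩ : ∃ p q r s, g⁻¹.1 * C.1 * g.1 = !![p, q; r, s] :=
    ⟨_, _, _, _, eta_fin_two _⟩
  have hgg : g.1 * g⁻¹.1 = 1 := by rw [← Units.val_mul, mul_inv_cancel]; rfl
  have hgg' : g⁻¹.1 * g.1 = 1 := by rw [← Units.val_mul, inv_mul_cancel]; rfl
  have hCg : C.1 * g.1 = g.1 * !![p, q; r, s] := by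
    rw [← hpq, ← mul_assoc, ← mul_assoc, hgg, one_mul]
  have hd : p * s - q * r = 1 := by
    have h1 : (g⁻¹.1 * C.1 * g.1).det = 1 := by
      rw [det_mul, det_mul, C.2, mul_one, ← det_mul, hgg', det_one]
    rw [hpq, det_fin_two_of] at h1
    exact h1
  have ht : p + s = 2 := by
    have h1 : (g⁻¹.1 * C.1 * g.1).trace = 2 := by
      rw [trace_mul_comm, ← mul_assoc, hgg, one_mul, hC]
    rw [hpq, trace_fin_two_of] at h1
    exact h1
  have hr : r ≠ 0 := by
    intro hr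
    subst hr
    have hs : s = 2 - p := by linear_combination ht
    subst hs
    have hp : p = 1 := by
      have : (p - 1) ^ 2 = 0 := by linear_combination -hd
      have := pow_eq_zero_iff (two_ne_zero) |>.1 this
      linear_combination this
    subst hp
    apply hBC
    have e1 : B.1 * C.1 * g.1 = C.1 * B.1 * g.1 := by
      rw [mul_assoc, hCg, ← mul_assoc, hg, mul_assoc, mul_assoc C.1, hg, ← mul_assoc C.1, hCg,
        mul_assoc]
      congr 1
      rw [mul_fin_two, mul_fin_two]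
      ext i j
      fin_cases i <;> fin_cases j <;> simp <;> ring
    calc B.1 * C.1 = B.1 * C.1 * g.1 * g⁻¹.1 := by rw [mul_assoc (B.1 * C.1), hgg, mul_one]
      _ = C.1 * B.1 * g.1 * g⁻¹.1 := by rw [e1]
      _ = C.1 * B.1 := by rw [mul_assoc (C.1 * B.1), hgg, mul_one]
  -- conjugate with an upper matrix
  let V : GL (Fin 2) (ZMod l) := g * (GeneralLinearGroup.mkOfDetNeZero !![1, (p - 1) / r; 0, 1]
    (by simp [det_fin_two_of]))
  have hV : V.1 = g.1 * !![1, (p - 1) / r; 0, 1] := rfl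
  refine ⟨V, r, ?_, ?_⟩
  · rw [hV, ← mul_assoc, hg, mul_assoc, mul_assoc]
    congr 1
    rw [mul_fin_two, mul_fin_two]
    ext i j
    fin_cases i <;> fin_cases j <;> simp
    ring
  · rw [hV, ← mul_assoc, hCg, mul_assoc, mul_assoc]
    congr 1
    have hs : s = 2 - p := by linear_combination ht
    subst hs
    rw [mul_fin_two, mul_fin_two]
    ext i j
    fin_cases i <;> fin_cases j <;> simp
    · field_simp; ring
    · field_simp; linear_combination -hd
    · field_simp; ring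

/-- the relation -/
def Rel {l : ℕ} [Fact l.Prime] (Γ : Subgroup (S (ZMod l) × S (ZMod l))) (V : GL (Fin 2) (ZMod l))
    (a M : S (ZMod l)) : Prop :=
  ∃ b, (a, b) ∈ Γ ∧ (b.1 * V.1 = V.1 * M.1 ∨ b.1 * V.1 = -(V.1 * M.1))

lemma Rel.mul {l : ℕ} [Fact l.Prime] {Γ : Subgroup (S (ZMod l) × S (ZMod l))}
    {V : GL (Fin 2) (ZMod l)} {a M a' M' : S (ZMod l)} (h : Rel Γ V a M) (h' : Rel Γ V a' M') :
    Rel Γ V (a * a') (M * M') := by
  obtain ⟨b, hb, e⟩ := h
  obtain ⟨b', hb', e'⟩ := h'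
  refine ⟨b * b', Γ.mul_mem hb hb', ?_⟩
  show b.1 * b'.1 * V.1 = V.1 * (M.1 * M'.1) ∨ b.1 * b'.1 * V.1 = -(V.1 * (M.1 * M'.1))
  rcases e' with e' | e'
  · rcases e with e | e
    · left
      rw [mul_assoc, e', ← mul_assoc, e, mul_assoc]
    · right
      rw [mul_assoc, e', ← mul_assoc, e, neg_mul, mul_assoc]
  · rcases e with e | e
    · right
      rw [mul_assoc, e', mul_neg, ← mul_assoc, e, mul_assoc]
    · left
      rw [mul_assoc, e', mul_neg, ← mul_assoc, e, neg_mul, neg_neg, mul_assoc]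

lemma Rel.one {l : ℕ} [Fact l.Prime] (Γ : Subgroup (S (ZMod l) × S (ZMod l)))
    (V : GL (Fin 2) (ZMod l)) : Rel Γ V 1 1 := by
  refine ⟨1, Γ.one_mem, Or.inl ?_⟩
  show (1 : Matrix (Fin 2) (Fin 2) (ZMod l)) * V.1 = V.1 * 1
  rw [one_mul, mul_one]

lemma Rel.pow {l : ℕ} [Fact l.Prime] {Γ : Subgroup (S (ZMod l) × S (ZMod l))}
    {V : GL (Fin 2) (ZMod l)} {a M : S (ZMod l)} (h : Rel Γ V a M) (n : ℕ) :
    Rel Γ V (a ^ n) (M ^ n) := by
  induction n with
  | zero => rw [pow_zero, pow_zero]; exact Rel.one Γ V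
  | succ n ih => rw [pow_succ, pow_succ]; exact ih.mul h

/-- the second component of an element with unipotent first component has trace two up to sign -/
lemma tr_two {l : ℕ} [Fact l.Prime] (hl : 5 < l) (Γ : Subgroup (S (ZMod l) × S (ZMod l)))
    (h2 : ∀ b, (1, b) ∈ Γ → b = 1 ∨ b = -1) (a b : S (ZMod l)) (h : (a, b) ∈ Γ) (ha : a ^ l = 1) :
    ∃ B : S (ZMod l), B.1.trace = 2 ∧ (b.1 = B.1 ∨ b.1 = -B.1) := by
  have h3 := Γ.pow_mem h l
  have h4 : ((1 : S (ZMod l)), b ^ l) ∈ Γ := by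
    have e : ((a, b) : S (ZMod l) × S (ZMod l)) ^ l = (1, b ^ l) := by
      rw [Prod.pow_mk, ha]
    rwa [e] at h3
  have h5 : b.1.trace ^ l = (b.1 ^ l).trace := (ZMod.trace_pow_card b.1).symm
  have h6 : b.1 ^ l = (b ^ l).1 := rfl
  rw [ZMod.pow_card, h6] at h5
  rcases h2 _ h4 with h7 | h7
  · refine ⟨b, ?_, Or.inl rfl⟩
    rw [h5, h7]
    show (1 : Matrix (Fin 2) (Fin 2) (ZMod l)).trace = 2
    simp
  · refine ⟨-b, ?_, Or.inr ?_⟩
    · show (-b.1).trace = 2
      rw [trace_neg, h5, h7]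
      show -(-(1 : Matrix (Fin 2) (Fin 2) (ZMod l))).trace = 2
      simp
    · show b.1 = -(-b.1)
      rw [neg_neg]

/-- the main case -/
lemma main {l : ℕ} [Fact l.Prime] (hl : 5 < l) (Γ : Subgroup (S (ZMod l) × S (ZMod l)))
    (hp1 : ∀ a, ∃ x ∈ Γ, x.1 = a) (h1 : ∀ a, (a, 1) ∈ Γ → a = 1 ∨ a = -1)
    (h2 : ∀ b, (1, b) ∈ Γ → b = 1 ∨ b = -1) :
    ∃ V : GL (Fin 2) (ZMod l), ∀ x ∈ Γ, x.2.1 * V.1 = V.1 * x.1.1 ∨
      x.2.1 * V.1 = -(V.1 * x.1.1) := by
  obtain ⟨n2, n3, -⟩ := num_ne hl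
  obtain ⟨⟨a1, b1⟩, hb1, ha1⟩ := hp1 (Up 1)
  obtain ⟨⟨a2, b2⟩, hb2, ha2⟩ := hp1 (Lo 1)
  simp only at ha1 ha2
  subst ha1 ha2
  obtain ⟨B, hB, eB⟩ := tr_two hl Γ h2 _ _ hb1 (by
    rw [Up_pow]; simp [Up_zero])
  obtain ⟨C, hC, eC⟩ := tr_two hl Γ h2 _ _ hb2 (by
    rw [Lo_pow]; simp [Lo_zero])
  have hBC : B.1 * C.1 ≠ C.1 * B.1 := by
    intro hBC
    have e1 : b1.1 * b2.1 = b2.1 * b1.1 := by
      rcases eB with e | e <;> rcases eC with e' | e' <;> rw [e, e'] <;> simp [hBC]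
    have e2 : b1 * b2 = b2 * b1 := Subtype.ext e1
    have m : ((Up 1 * Lo 1) * (Lo 1 * Up 1)⁻¹, (1 : S (ZMod l))) ∈ Γ := by
      have := Γ.mul_mem (Γ.mul_mem hb1 hb2) (Γ.inv_mem (Γ.mul_mem hb2 hb1))
      have e3 : ((Up (1 : ZMod l), b1) * (Lo (1 : ZMod l), b2)) *
          ((Lo (1 : ZMod l), b2) * (Up (1 : ZMod l), b1))⁻¹ =
          ((Up 1 * Lo 1) * (Lo 1 * Up 1)⁻¹, (1 : S (ZMod l))) := by
        rw [Prod.mk_mul_mk, Prod.mk_mul_mk, Prod.inv_mk, Prod.mk_mul_mk, e2, mul_inv_cancel]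
      rwa [e3] at this
    rcases h1 _ m with h | h
    · rw [mul_inv_eq_one] at h
      have h3 : (Up 1 * Lo 1 : S (ZMod l)).1 0 0 = (Lo 1 * Up 1 : S (ZMod l)).1 0 0 := by rw [h]
      rw [Up, Lo, mk_mul, mk_mul] at h3
      simp [mk] at h3
    · rw [mul_inv_eq_iff_eq_mul] at h
      have h3 : (Up 1 * Lo 1 : S (ZMod l)).1 0 1 = (-1 * (Lo 1 * Up 1) : S (ZMod l)).1 0 1 := by
        rw [h]
      have h4 : (-1 * (Lo 1 * Up 1) : S (ZMod l)).1 = -(Lo 1 * Up 1 : S (ZMod l)).1 := by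
        show (-1 : Matrix (Fin 2) (Fin 2) (ZMod l)) * (Lo 1 * Up 1 : S (ZMod l)).1 = _
        rw [neg_mul, one_mul]
      rw [h4, Up, Lo, mk_mul, mk_mul] at h3
      simp [mk] at h3
      apply n2
      linear_combination h3
  obtain ⟨V, β, hV1, hV2⟩ := pair_unip B C hB hC hBC
  have r1 : Rel Γ V (Up 1) (Up 1) := by
    refine ⟨b1, hb1, ?_⟩
    rcases eB with e | e
    · left; rw [e, hV1]; rfl
    · right; rw [e, neg_mul, hV1]; rfl
  have r2 : Rel Γ V (Lo 1) (Lo β) := by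
    refine ⟨b2, hb2, ?_⟩
    rcases eC with e | e
    · left; rw [e, hV2]; rfl
    · right; rw [e, neg_mul, hV2]; rfl
  have rU : ∀ x, Rel Γ V (Up x) (Up x) := by
    intro x
    have := r1.pow x.val
    rwa [Up_pow, mul_one, ZMod.natCast_val, ZMod.cast_id] at this
  have rL : ∀ y, Rel Γ V (Lo y) (Lo (y * β)) := by
    intro x
    have := r2.pow x.val
    rwa [Lo_pow, Lo_pow, mul_one, ZMod.natCast_val, ZMod.cast_id] at this
  have hgg : V⁻¹.1 * V.1 = 1 := by rw [← Units.val_mul, inv_mul_cancel]; rfl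
  have r0 : ∀ M, Rel Γ V 1 M → M.1 0 1 = 0 := by
    intro M hM
    obtain ⟨b, hb, e⟩ := hM
    have e1 : M.1 = 1 ∨ M.1 = -1 := by
      have e2 : b.1 * V.1 = V.1 ∨ b.1 * V.1 = -V.1 := by
        rcases h2 _ hb with h | h
        · left; rw [h]
          show (1 : Matrix (Fin 2) (Fin 2) (ZMod l)) * V.1 = V.1
          rw [one_mul]
        · right; rw [h]
          show (-1 : Matrix (Fin 2) (Fin 2) (ZMod l)) * V.1 = -V.1
          rw [neg_mul, one_mul]
      have e3 : M.1 = V⁻¹.1 * (V.1 * M.1) := by rw [← mul_assoc, hgg, one_mul]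
      rcases e with e | e <;> rcases e2 with e2 | e2
      · left; rw [e3, ← e, e2, hgg]
      · right; rw [e3, ← e, e2, mul_neg, hgg]
      · right
        have : V.1 * M.1 = -(b.1 * V.1) := by rw [e, neg_neg]
        rw [e3, this, e2, mul_neg, hgg]
      · left
        have : V.1 * M.1 = -(b.1 * V.1) := by rw [e, neg_neg]
        rw [e3, this, e2, neg_neg, hgg]
    rcases e1 with e1 | e1 <;> rw [e1] <;> simp
  have k3 : (1 - 3 * β) * (3 - 3 * β) = 0 := by
    have := ((rU 1).mul (rL (-3))).pow 3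
    have e : (Up 1 * Lo (-3) : S (ZMod l)) ^ 3 = 1 := by
      rw [pow_succ, pow_succ, pow_one, Up, Lo, mk_mul, mk_mul, mk_mul, ← mk_one]
      apply mk_eq <;> ring
    rw [e] at this
    have h := r0 _ this
    rw [pow_succ, pow_succ, pow_one, Up, Lo, mk_mul, mk_mul, mk_mul] at h
    simp [mk] at h
    linear_combination h
  have k4 : (2 - 2 * β) * ((2 - 2 * β) ^ 2 - 2) = 0 := by
    have := ((rU 1).mul (rL (-2))).pow 4
    have e : (Up 1 * Lo (-2) : S (ZMod l)) ^ 4 = 1 := by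
      rw [pow_succ, pow_succ, pow_succ, pow_one, Up, Lo, mk_mul, mk_mul, mk_mul, mk_mul, ← mk_one]
      apply mk_eq <;> ring
    rw [e] at this
    have h := r0 _ this
    rw [pow_succ, pow_succ, pow_succ, pow_one, Up, Lo, mk_mul, mk_mul, mk_mul, mk_mul] at h
    simp [mk] at h
    linear_combination h
  have hβ : β = 1 := by
    rcases mul_eq_zero.1 k3 with h | h
    · exfalso
      have e : (2 : ZMod l) ^ 3 = 0 := by
        linear_combination (-27) * k4 + (116 - 192 * β + 72 * β ^ 2) * h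
      exact pow_ne_zero 3 n2 e
    · have : (3 : ZMod l) * (1 - β) = 0 := by linear_combination h
      rcases mul_eq_zero.1 this with h | h
      · exact absurd h n3
      · linear_combination -h
  subst hβ
  have rA : ∀ A, Rel Γ V A A := gen (fun A => Rel Γ V A A) rU (fun x => by simpa using rL x)
    (fun a b ha hb => ha.mul hb)
  refine ⟨V, ?_⟩
  rintro ⟨a, b'⟩ hx
  show b'.1 * V.1 = V.1 * a.1 ∨ b'.1 * V.1 = -(V.1 * a.1)
  obtain ⟨b, hb, e⟩ := rA a
  have m : ((1 : S (ZMod l)), b' * b⁻¹) ∈ Γ := by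
    have := Γ.mul_mem hx (Γ.inv_mem hb)
    rwa [Prod.inv_mk, Prod.mk_mul_mk, mul_inv_cancel] at this
  rcases h2 _ m with h | h
  · rw [mul_inv_eq_one] at h
    rw [h]; exact e
  · rw [mul_inv_eq_iff_eq_mul] at h
    have h4 : b'.1 = -b.1 := by
      rw [h]
      show (-1 : Matrix (Fin 2) (Fin 2) (ZMod l)) * b.1 = _
      rw [neg_mul, one_mul]
    rw [h4, neg_mul]
    rcases e with e | e
    · right; rw [e]
    · left; rw [e, neg_neg]

theorem st_GOU : REC.ST_GOU := by
  intro l _ hl Γ hp1 hp2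
  by_cases hN1 : ∃ a, (a, 1) ∈ Γ ∧ a ≠ 1 ∧ a ≠ -1
  · left
    obtain ⟨a, ha, ha1, ha2⟩ := hN1
    have e := normal_top hl (Γ.comap (MonoidHom.inl (S (ZMod l)) (S (ZMod l)))) (by
      intro g x hx
      obtain ⟨⟨g1, g2⟩, hg, hg1⟩ := hp1 g
      simp only at hg1
      subst hg1
      have hx' : (x, (1 : S (ZMod l))) ∈ Γ := hx
      have := Γ.mul_mem (Γ.mul_mem hg hx') (Γ.inv_mem hg)
      rw [Prod.mk_mul_mk, Prod.inv_mk, Prod.mk_mul_mk, mul_one, mul_inv_cancel] at this
      exact this) a ha ha1 ha2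
    rw [Subgroup.eq_top_iff']
    rintro ⟨x1, x2⟩
    obtain ⟨⟨y1, y2⟩, hy, hy2⟩ := hp2 x2
    simp only at hy2
    subst hy2
    have h3 : x1 * y1⁻¹ ∈ Γ.comap (MonoidHom.inl (S (ZMod l)) (S (ZMod l))) := by rw [e]; trivial
    have h4 : (x1 * y1⁻¹, (1 : S (ZMod l))) ∈ Γ := h3
    have := Γ.mul_mem h4 hy
    rwa [Prod.mk_mul_mk, one_mul, inv_mul_cancel_right] at this
  · by_cases hN2 : ∃ b, (1, b) ∈ Γ ∧ b ≠ 1 ∧ b ≠ -1
    · left
      obtain ⟨b, hb, hb1, hb2⟩ := hN2
      have e := normal_top hl (Γ.comap (MonoidHom.inr (S (ZMod l)) (S (ZMod l)))) (by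
        intro g x hx
        obtain ⟨⟨g1, g2⟩, hg, hg1⟩ := hp2 g
        simp only at hg1
        subst hg1
        have hx' : ((1 : S (ZMod l)), x) ∈ Γ := hx
        have := Γ.mul_mem (Γ.mul_mem hg hx') (Γ.inv_mem hg)
        rw [Prod.mk_mul_mk, Prod.inv_mk, Prod.mk_mul_mk, mul_one, mul_inv_cancel] at this
        exact this) b hb hb1 hb2
      rw [Subgroup.eq_top_iff']
      rintro ⟨x1, x2⟩
      obtain ⟨⟨y1, y2⟩, hy, hy2⟩ := hp1 x1
      simp only at hy2
      subst hy2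
      have h3 : x2 * y2⁻¹ ∈ Γ.comap (MonoidHom.inr (S (ZMod l)) (S (ZMod l))) := by
        rw [e]; trivial
      have h4 : ((1 : S (ZMod l)), x2 * y2⁻¹) ∈ Γ := h3
      have := Γ.mul_mem h4 hy
      rwa [Prod.mk_mul_mk, one_mul, inv_mul_cancel_right] at this
    · right
      push Not at hN1 hN2
      obtain ⟨V, hV⟩ := main hl Γ hp1 (fun a ha => by
        by_cases h : a = 1
        · exact Or.inl h
        · exact Or.inr (hN1 a ha h)) (fun b hb => by
        by_cases h : b = 1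
        · exact Or.inl h
        · exact Or.inr (hN2 b hb h))
      refine ⟨V, fun x hx => ?_⟩
      have hgg : V.1 * V⁻¹.1 = 1 := by rw [← Units.val_mul, mul_inv_cancel]; rfl
      have e : (x.2 : Matrix (Fin 2) (Fin 2) (ZMod l)) = x.2.1 * V.1 * V⁻¹.1 := by
        rw [mul_assoc, hgg, mul_one]
      rcases hV x hx with h | h
      · left; rw [e, h]
      · right; rw [e, h, neg_mul]

end Pool.Agent.Helper58.REC.GOU

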