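import Pool.Agent.Helper58.REC.GOU

/-!
# Joint images: `REC.ST_JNT`   [helper58]
-/

set_option autoImplicit false

namespace Pool.Agent.Helper58.REC.JNT

open Matrix Pool.Agent.Helper58.REC.GOU
open scoped commutatorElement

/-- conjugation up to sign on a normal subgroup with large image -/
lemma twist {G : Type} [Group G] {l : ℕ} [Fact l.Prime] (hl : 5 < l) (D : Subgroup G)
    [hD : D.Normal] (r s : G →* GL (Fin 2) (ZMod l)) (u : GL (Fin 2) (ZMod l))
    (h : ∀ x ∈ D, s x = u * r x * u⁻¹ ∨ s x = -(u * r x * u⁻¹))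
    (hU : ∃ x ∈ D, (r x).1 = !![1, 1; 0, 1]) (hL : ∃ x ∈ D, (r x).1 = !![1, 0; 1, 1]) (g : G) :
    (s g).1.trace ^ 2 * (r g).1.det = (r g).1.trace ^ 2 * (s g).1.det := by
  obtain ⟨n2, n3, -⟩ := num_ne hl
  obtain ⟨z, hz⟩ : ∃ z, z = (r g)⁻¹ * u⁻¹ * s g * u := ⟨_, rfl⟩
  have e0 : s g = u * (r g * z) * u⁻¹ := by rw [hz]; group
  have key : ∀ x ∈ D, z * r x * z⁻¹ = r x ∨ z * r x * z⁻¹ = -(r x) := by
    intro x hx
    have hx' : g * x * g⁻¹ ∈ D := hD.conj_mem x hx g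
    have h1 := h x hx
    have h2 := h _ hx'
    have e1 : s (g * x * g⁻¹) = s g * s x * (s g)⁻¹ := by rw [map_mul, map_mul, map_inv]
    have e2 : r (g * x * g⁻¹) = r g * r x * (r g)⁻¹ := by rw [map_mul, map_mul, map_inv]
    rw [e1, e2, e0] at h2
    rcases h1 with h1 | h1 <;> rcases h2 with h2 | h2 <;> rw [h1] at h2
    · left
      have := congrArg (fun y => (r g)⁻¹ * u⁻¹ * y * (u * r g)) h2
      have e3 : (r g)⁻¹ * u⁻¹ * (u * (r g * z) * u⁻¹ * (u * r x * u⁻¹) *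
          (u * (r g * z) * u⁻¹)⁻¹) * (u * r g) = z * r x * z⁻¹ := by group
      have e4 : (r g)⁻¹ * u⁻¹ * (u * (r g * r x * (r g)⁻¹) * u⁻¹) * (u * r g) = r x := by group
      rwa [e3, e4] at this
    · right
      have := congrArg (fun y => (r g)⁻¹ * u⁻¹ * y * (u * r g)) h2
      have e3 : (r g)⁻¹ * u⁻¹ * (u * (r g * z) * u⁻¹ * (u * r x * u⁻¹) *
          (u * (r g * z) * u⁻¹)⁻¹) * (u * r g) = z * r x * z⁻¹ := by group
      have e4 : (r g)⁻¹ * u⁻¹ * (u * (r g * r x * (r g)⁻¹) * u⁻¹) * (u * r g) = r x := by group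
      rwa [e3, mul_neg, neg_mul, e4] at this
    · right
      have := congrArg (fun y => -((r g)⁻¹ * u⁻¹ * y * (u * r g))) h2
      have e3 : (r g)⁻¹ * u⁻¹ * (u * (r g * z) * u⁻¹ * (u * r x * u⁻¹) *
          (u * (r g * z) * u⁻¹)⁻¹) * (u * r g) = z * r x * z⁻¹ := by group
      have e4 : (r g)⁻¹ * u⁻¹ * (u * (r g * r x * (r g)⁻¹) * u⁻¹) * (u * r g) = r x := by group
      rw [mul_neg, neg_mul, mul_neg, neg_mul, neg_neg, e3, e4] at this
      exact this
    · left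
      have := congrArg (fun y => -((r g)⁻¹ * u⁻¹ * y * (u * r g))) h2
      have e3 : (r g)⁻¹ * u⁻¹ * (u * (r g * z) * u⁻¹ * (u * r x * u⁻¹) *
          (u * (r g * z) * u⁻¹)⁻¹) * (u * r g) = z * r x * z⁻¹ := by group
      have e4 : (r g)⁻¹ * u⁻¹ * (u * (r g * r x * (r g)⁻¹) * u⁻¹) * (u * r g) = r x := by group
      rw [mul_neg, neg_mul, mul_neg, neg_mul, neg_neg, e3, mul_neg, neg_mul, e4, neg_neg] at this
      exact this
  have com : ∀ x ∈ D, (r x).1.trace = 2 → z.1 * (r x).1 = (r x).1 * z.1 := by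
    intro x hx ht
    rcases key x hx with h1 | h1
    · have h2 : z * r x = r x * z := mul_inv_eq_iff_eq_mul.1 h1
      exact congrArg (fun y : GL (Fin 2) (ZMod l) => y.1) h2
    · exfalso
      have h2 : (z * r x * z⁻¹).1.trace = (-(r x)).1.trace := by rw [h1]
      have h3 : (z * r x * z⁻¹).1.trace = 2 := by
        show (z.1 * (r x).1 * (z⁻¹).1).trace = 2
        rw [trace_mul_comm, ← mul_assoc, ← Units.val_mul, inv_mul_cancel]
        show ((1 : Matrix (Fin 2) (Fin 2) (ZMod l)) * (r x).1).trace = 2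
        rw [one_mul, ht]
      have h4 : (-(r x)).1.trace = -2 := by
        show (-(r x).1).trace = -2
        rw [trace_neg, ht]
      rw [h3, h4] at h2
      have h5 : (2 : ZMod l) * 2 = 0 := by linear_combination h2
      exact mul_ne_zero n2 n2 h5
  obtain ⟨x, hx, ex⟩ := hU
  obtain ⟨y, hy, ey⟩ := hL
  have c1 := com x hx (by rw [ex]; simp [trace_fin_two]; norm_num)
  have c2 := com y hy (by rw [ey]; simp [trace_fin_two]; norm_num)
  obtain ⟨a, b, c, d, hzz⟩ : ∃ a b c d, z.1 = !![a, b; c, d] := ⟨_, _, _, _, eta_fin_two _⟩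
  rw [ex, hzz, mul_fin_two, mul_fin_two] at c1
  rw [ey, hzz, mul_fin_two, mul_fin_two] at c2
  have c3 := congrFun (congrFun c1 0) 0
  have c4 := congrFun (congrFun c1 0) 1
  have c5 := congrFun (congrFun c2 0) 0
  simp at c3 c4 c5
  have hc : c = 0 := by linear_combination c3
  have hb : b = 0 := by linear_combination c5
  have hd : d = a := by linear_combination -c4
  subst hc hb hd
  have hz1 : z.1 = d • (1 : Matrix (Fin 2) (Fin 2) (ZMod l)) := by
    rw [hzz, one_fin_two]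
    ext i j
    fin_cases i <;> fin_cases j <;> simp
  have e1 : (s g).1 = d • (u.1 * (r g).1 * (u⁻¹).1) := by
    rw [e0]
    show u.1 * ((r g).1 * z.1) * (u⁻¹).1 = _
    rw [hz1, Matrix.mul_smul, Matrix.mul_smul, Matrix.smul_mul, mul_one]
  have hu : (u⁻¹).1 * u.1 = 1 := by rw [← Units.val_mul, inv_mul_cancel]; rfl
  have e2 : (u.1 * (r g).1 * (u⁻¹).1).trace = (r g).1.trace := by
    rw [trace_mul_comm, ← mul_assoc, hu, one_mul]
  have e3 : (u.1 * (r g).1 * (u⁻¹).1).det = (r g).1.det := by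
    have : u.1.det * (u⁻¹).1.det = 1 := by
      rw [← det_mul, ← Units.val_mul, mul_inv_cancel]; exact det_one
    rw [det_mul, det_mul]
    linear_combination (r g).1.det * this
  rw [e1, trace_smul, det_smul, e2, e3]
  simp only [smul_eq_mul, Fintype.card_fin]
  ring

/-- `SL_2(𝔽_l)` is perfect -/
lemma onto_comm {G : Type} [Group G] {l : ℕ} [Fact l.Prime] (hl : 5 < l)
    (r : G →* GL (Fin 2) (ZMod l)) (h : ∀ A : S (ZMod l), ∃ g, r g = SpecialLinearGroup.toGL A)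
    (A : S (ZMod l)) : ∃ x ∈ commutator G, r x = SpecialLinearGroup.toGL A := by
  obtain ⟨n2, n3, -⟩ := num_ne hl
  have key : ∀ A B : S (ZMod l), ∃ x ∈ commutator G, r x =
      SpecialLinearGroup.toGL (A * B * A⁻¹ * B⁻¹) := by
    intro A B
    obtain ⟨g, hg⟩ := h A
    obtain ⟨g', hg'⟩ := h B
    refine ⟨⁅g, g'⁆, Subgroup.commutator_mem_commutator (Subgroup.mem_top g)
      (Subgroup.mem_top g'), ?_⟩
    rw [commutatorElement_def, map_mul, map_mul, map_mul, map_inv, map_inv, hg, hg', map_mul,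
      map_mul, map_mul, map_inv, map_inv]
  refine gen (fun A => ∃ x ∈ commutator G, r x = SpecialLinearGroup.toGL A) ?_ ?_ ?_ A
  · intro x
    obtain ⟨y, hy, e⟩ := key (mk 2 0 0 2⁻¹ (by field_simp; ring)) (Up (x / 3))
    refine ⟨y, hy, ?_⟩
    rw [e]
    congr 1
    rw [mk_inv, Up_inv, Up, Up, Up, mk_mul, mk_mul, mk_mul]
    apply mk_eq
    · field_simp; ring
    · field_simp; ring
    · ring
    · field_simp; ring
  · intro x
    obtain ⟨y, hy, e⟩ := key (mk 2⁻¹ 0 0 2 (by field_simp; ring)) (Lo (x / 3))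
    refine ⟨y, hy, ?_⟩
    rw [e]
    congr 1
    rw [mk_inv, Lo_inv, Lo, Lo, Lo, mk_mul, mk_mul, mk_mul]
    apply mk_eq
    · field_simp; ring
    · ring
    · field_simp; ring
    · field_simp; ring
  · rintro a b ⟨x, hx, ex⟩ ⟨y, hy, ey⟩
    exact ⟨x * y, Subgroup.mul_mem _ hx hy, by rw [map_mul, ex, ey, map_mul]⟩

lemma det_comm {G : Type} [Group G] {l : ℕ} [Fact l.Prime] (r : G →* GL (Fin 2) (ZMod l))
    (x : G) (hx : x ∈ commutator G) : ∃ A : S (ZMod l), r x = SpecialLinearGroup.toGL A := by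
  have h := Abelianization.commutator_subset_ker ((GeneralLinearGroup.det).comp r) hx
  have h1 : GeneralLinearGroup.det (r x) = 1 := h
  have h2 : (r x).1.det = 1 := by
    have := congrArg (fun y : (ZMod l)ˣ => y.1) h1
    exact this
  exact ⟨⟨(r x).1, h2⟩, Units.ext rfl⟩

lemma toGL_inj {l : ℕ} [Fact l.Prime] {A B : S (ZMod l)}
    (h : SpecialLinearGroup.toGL A = SpecialLinearGroup.toGL B) : A = B := by
  have := congrArg (fun y : GL (Fin 2) (ZMod l) => y.1) h
  exact Subtype.ext this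

/-- either the joint image is everything or two of the representations are twists -/
lemma alt (hGOU : REC.ST_GOU) (hRIB : REC.ST_RIB) {G : Type} [Group G] {l t : ℕ} [Fact l.Prime]
    (hl : 5 < l) (r : Fin t → G →* GL (Fin 2) (ZMod l))
    (h : ∀ i (A : S (ZMod l)), ∃ g, r i g = SpecialLinearGroup.toGL A) :
    (∀ Y : Fin t → S (ZMod l), ∃ x ∈ commutator G, ∀ i, r i x = SpecialLinearGroup.toGL (Y i)) ∨
    ∃ i j, i ≠ j ∧ ∀ g, (r j g).1.trace ^ 2 * (r i g).1.det =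
      (r i g).1.trace ^ 2 * (r j g).1.det := by
  let Γ : Subgroup (Fin t → S (ZMod l)) :=
    { carrier := {f | ∃ x ∈ commutator G, ∀ i, r i x = SpecialLinearGroup.toGL (f i)}
      one_mem' := ⟨1, Subgroup.one_mem _, fun i => by
        rw [map_one]; show (1 : GL (Fin 2) (ZMod l)) = SpecialLinearGroup.toGL 1; rw [map_one]⟩
      mul_mem' := by
        rintro a b ⟨x, hx, ex⟩ ⟨y, hy, ey⟩
        exact ⟨x * y, Subgroup.mul_mem _ hx hy, fun i => by
          rw [map_mul, ex, ey, ← map_mul]; rfl⟩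
      inv_mem' := by
        rintro a ⟨x, hx, ex⟩
        exact ⟨x⁻¹, Subgroup.inv_mem _ hx, fun i => by rw [map_inv, ex, ← map_inv]; rfl⟩ }
  have hΓ : ∀ x ∈ commutator G, ∃ f ∈ Γ, ∀ i, r i x = SpecialLinearGroup.toGL (f i) := by
    intro x hx
    choose f hf using fun i => det_comm (r i) x hx
    exact ⟨f, ⟨x, hx, hf⟩, hf⟩
  by_cases hp : ∀ i j, i ≠ j → ∀ a b, ∃ x ∈ Γ, x i = a ∧ x j = b
  · left
    have e := hRIB l t hl Γ (by
      intro i a
      obtain ⟨x, hx, ex⟩ := onto_comm hl (r i) (h i) a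
      obtain ⟨f, hf, ef⟩ := hΓ x hx
      exact ⟨f, hf, toGL_inj ((ef i).symm.trans ex)⟩) hp
    intro Y
    have hY : Y ∈ Γ := by rw [e]; trivial
    exact hY
  · right
    push Not at hp
    obtain ⟨i, j, hij, a, b, hab⟩ := hp
    refine ⟨i, j, hij, ?_⟩
    let Γ2 : Subgroup (S (ZMod l) × S (ZMod l)) :=
      { carrier := {p | ∃ x ∈ commutator G, r i x = SpecialLinearGroup.toGL p.1 ∧
          r j x = SpecialLinearGroup.toGL p.2}
        one_mem' := ⟨1, Subgroup.one_mem _, by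
          rw [map_one]; show (1 : GL (Fin 2) (ZMod l)) = SpecialLinearGroup.toGL 1; rw [map_one],
          by rw [map_one]; show (1 : GL (Fin 2) (ZMod l)) = SpecialLinearGroup.toGL 1; rw [map_one]⟩
        mul_mem' := by
          rintro a b ⟨x, hx, ex, ex'⟩ ⟨y, hy, ey, ey'⟩
          exact ⟨x * y, Subgroup.mul_mem _ hx hy, by rw [map_mul, ex, ey, ← map_mul]; rfl,
            by rw [map_mul, ex', ey', ← map_mul]; rfl⟩
        inv_mem' := by
          rintro a ⟨x, hx, ex, ex'⟩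
          exact ⟨x⁻¹, Subgroup.inv_mem _ hx, by rw [map_inv, ex, ← map_inv]; rfl,
            by rw [map_inv, ex', ← map_inv]; rfl⟩ }
    rcases hGOU l hl Γ2 (by
        intro a
        obtain ⟨x, hx, ex⟩ := onto_comm hl (r i) (h i) a
        obtain ⟨b, hb⟩ := det_comm (r j) x hx
        exact ⟨(a, b), ⟨x, hx, ex, hb⟩, rfl⟩) (by
        intro b
        obtain ⟨x, hx, ex⟩ := onto_comm hl (r j) (h j) b
        obtain ⟨a, ha⟩ := det_comm (r i) x hx
        exact ⟨(a, b), ⟨x, hx, ha, ex⟩, rfl⟩) with hG | ⟨u, hu⟩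
    · exfalso
      have hm : (a, b) ∈ Γ2 := by rw [hG]; trivial
      obtain ⟨x, hx, ex, ex'⟩ := hm
      obtain ⟨f, hf, ef⟩ := hΓ x hx
      exact hab f hf (toGL_inj ((ef i).symm.trans ex)) (toGL_inj ((ef j).symm.trans ex'))
    · refine twist hl (commutator G) (r i) (r j) u ?_ ?_ ?_
      · intro x hx
        obtain ⟨a, ha⟩ := det_comm (r i) x hx
        obtain ⟨b, hb⟩ := det_comm (r j) x hx
        rw [ha, hb]
        rcases hu (a, b) ⟨x, hx, ha, hb⟩ with h | h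
        · left; exact Units.ext h
        · right; exact Units.ext h
      · obtain ⟨x, hx, ex⟩ := onto_comm hl (r i) (h i) (Up 1)
        exact ⟨x, hx, by rw [ex]; rfl⟩
      · obtain ⟨x, hx, ex⟩ := onto_comm hl (r i) (h i) (Lo 1)
        exact ⟨x, hx, by rw [ex]; rfl⟩

lemma coeff0 {R : Type} [CommRing R] [Nontrivial R] (A : Matrix (Fin 2) (Fin 2) R) :
    A.charpoly.coeff 0 = A.det := by
  rw [charpoly_fin_two]; simp

lemma coeff1 {R : Type} [CommRing R] [Nontrivial R] (A : Matrix (Fin 2) (Fin 2) R) :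
    A.charpoly.coeff 1 = -A.trace := by
  rw [charpoly_fin_two]; simp [Polynomial.coeff_C]

theorem st_JNT (hGOU : REC.ST_GOU) (hRIB : REC.ST_RIB) (hTM2 : REC.ST_TM2) : REC.ST_JNT := by
  intro F _ _ t S w h M hS hSL hUnr H hH
  by_contra hc
  push Not at hc
  choose c0 hc0 using fun i => hSL i H hH
  -- pairs
  have step : ∀ c : ℕ, ∃ (l : ℕ) (_ : Fact l.Prime), c < l ∧ ∃ p : Fin t × Fin t, p.1 ≠ p.2 ∧
      ∀ g ∈ H, (MU.res ((M p.2).ρ l) g).trace ^ 2 * (MU.res ((M p.1).ρ l) g).det =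
        (MU.res ((M p.1).ρ l) g).trace ^ 2 * (MU.res ((M p.2).ρ l) g).det := by
    intro c
    obtain ⟨l, hl, hcl, Y, hY, hno⟩ := hc (c + 5 + ∑ i, c0 i)
    refine ⟨l, hl, by omega, ?_⟩
    have hle : ∀ i, c0 i < l := by
      intro i
      have := Finset.single_le_sum (f := c0) (fun _ _ => Nat.zero_le _) (Finset.mem_univ i)
      omega
    rcases alt hGOU hRIB (l := l) (by omega)
      (fun i => (MU.res ((M i).ρ l)).toHomUnits.comp H.subtype) (by
        intro i A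
        obtain ⟨g, hg, e⟩ := hc0 i l (hle i) A.1 A.2
        exact ⟨⟨g, hg⟩, Units.ext e⟩) with h1 | ⟨i, j, hij, h1⟩
    · exfalso
      obtain ⟨x, hx, ex⟩ := h1 (fun i => ⟨Y i, hY i⟩)
      obtain ⟨i, hi⟩ := hno x hx
      apply hi
      exact congrArg (fun y : GL (Fin 2) (ZMod l) => y.1) (ex i)
    · exact ⟨(i, j), hij, fun g hg => h1 ⟨g, hg⟩⟩
  have pig : ∃ p : Fin t × Fin t, p.1 ≠ p.2 ∧ ∀ c : ℕ, ∃ (l : ℕ) (_ : Fact l.Prime), c < l ∧
      ∀ g ∈ H, (MU.res ((M p.2).ρ l) g).trace ^ 2 * (MU.res ((M p.1).ρ l) g).det =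
        (MU.res ((M p.1).ρ l) g).trace ^ 2 * (MU.res ((M p.2).ρ l) g).det := by
    by_contra hcon
    push Not at hcon
    have : ∀ p : Fin t × Fin t, ∃ c : ℕ, p.1 ≠ p.2 → ∀ (l : ℕ) (_ : Fact l.Prime), c < l →
      ∃ g ∈ H, (MU.res ((M p.2).ρ l) g).trace ^ 2 * (MU.res ((M p.1).ρ l) g).det ≠
        (MU.res ((M p.1).ρ l) g).trace ^ 2 * (MU.res ((M p.2).ρ l) g).det := by
      intro p
      by_cases hp : p.1 = p.2
      · exact ⟨0, fun h => absurd hp h⟩
      · obtain ⟨c, hc⟩ := hcon p hp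
        exact ⟨c, fun _ => hc⟩
    choose c1 hc1 using this
    obtain ⟨l, hl, hcl, p, hp, hg⟩ := step (∑ p, c1 p)
    have hle := Finset.single_le_sum (f := c1) (fun _ _ => Nat.zero_le _) (Finset.mem_univ p)
    obtain ⟨g, hgH, hne⟩ := hc1 p hp l hl (by omega)
    exact hne (hg g hgH)
  obtain ⟨⟨i, j⟩, hij, hid⟩ := pig
  obtain ⟨l, hl, g, hg, hne⟩ := hUnr i j hij H hH
  have := hTM2 F (S i) (S j) (hS i) (hS j) 2 2 (w i) (w j) (h i) (h j) (M i) (M j) (H : Set _) hH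
    (MvPolynomial.X (Sum.inl 1) ^ 2 * MvPolynomial.X (Sum.inr 0) -
      MvPolynomial.X (Sum.inr 1) ^ 2 * MvPolynomial.X (Sum.inl 0)) (by
      intro c
      obtain ⟨l, hl, hcl, hl2⟩ := hid c
      refine ⟨l, hl, hcl, ?_⟩
      intro σ hσ
      have := hl2 σ hσ
      simp only [map_sub, map_mul, map_pow, MvPolynomial.aeval_X, Sum.elim_inl, Sum.elim_inr,
        coeff0, coeff1]
      linear_combination -this) l g hg
  apply hne
  simp only [map_sub, map_mul, map_pow, MvPolynomial.aeval_X, Sum.elim_inl, Sum.elim_inr,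
    coeff0, coeff1] at this
  linear_combination this

end Pool.Agent.Helper58.REC.JNT

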